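import Mathlib

namespace Pool.Agent.Lib.MP_55068a_an.Lv

open Polynomial

/-- `d` is a derivation of the subfield `F` of the complex numbers. -/
structure IsDer (F : Subfield ℂ) (d : ℂ → ℂ) : Prop where
  mem : ∀ x ∈ F, d x ∈ F
  add : ∀ x ∈ F, ∀ y ∈ F, d (x + y) = d x + d y
  mul : ∀ x ∈ F, ∀ y ∈ F, d (x * y) = x * d y + y * d x

namespace IsDer

variable {F : Subfield ℂ} {d : ℂ → ℂ} (h : IsDer F d)
include h

theorem zero : d 0 = 0 := by
  have := h.add 0 F.zero_mem 0 F.zero_mem
  rw [add_zero] at this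
  linear_combination -this

theorem one : d 1 = 0 := by
  have := h.mul 1 F.one_mem 1 F.one_mem
  rw [mul_one] at this
  linear_combination -this

theorem neg {x : ℂ} (hx : x ∈ F) : d (-x) = -d x := by
  have := h.add x hx (-x) (F.neg_mem hx)
  rw [add_neg_cancel, h.zero] at this
  linear_combination -this

theorem inv {x : ℂ} (hx : x ∈ F) : d x⁻¹ = -(d x * x⁻¹ * x⁻¹) := by
  rcases eq_or_ne x 0 with rfl | h0
  · simp [h.zero]
  have := h.mul x hx x⁻¹ (F.inv_mem hx)
  rw [mul_inv_cancel₀ h0, h.one] at this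
  have e : x⁻¹ * x = 1 := inv_mul_cancel₀ h0
  linear_combination -x⁻¹ * this - d x⁻¹ * e

theorem pow {x : ℂ} (hx : x ∈ F) (n : ℕ) : d (x ^ (n + 1)) = (n + 1) * x ^ n * d x := by
  induction n with
  | zero => simp
  | succ n ih =>
    rw [pow_succ x (n + 1), h.mul _ (F.pow_mem hx _) _ hx, ih]
    push_cast
    ring

theorem nat (n : ℕ) : d n = 0 := by
  induction n with
  | zero => simpa using h.zero
  | succ n ih =>
    push_cast
    rw [h.add _ (natCast_mem F n) _ F.one_mem, ih, h.one, add_zero]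

/-- The kernel of a derivation. -/
def ker : Subfield ℂ where
  carrier := {x | x ∈ F ∧ d x = 0}
  mul_mem' := fun {x y} hx hy => ⟨F.mul_mem hx.1 hy.1, by rw [h.mul x hx.1 y hy.1, hx.2, hy.2]; ring⟩
  one_mem' := ⟨F.one_mem, h.one⟩
  add_mem' := fun {x y} hx hy => ⟨F.add_mem hx.1 hy.1, by rw [h.add x hx.1 y hy.1, hx.2, hy.2]; ring⟩
  zero_mem' := ⟨F.zero_mem, h.zero⟩
  neg_mem' := fun {x} hx => ⟨F.neg_mem hx.1, by rw [h.neg hx.1, hx.2]; ring⟩
  inv_mem' := fun x hx => ⟨F.inv_mem hx.1, by rw [h.inv hx.1, hx.2]; ring⟩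

theorem closure {S : Set ℂ} (hS : S ⊆ F) (hd : ∀ s ∈ S, d s ∈ Subfield.closure S) :
    ∀ x ∈ Subfield.closure S, d x ∈ Subfield.closure S := by
  have hle : Subfield.closure S ≤ F := Subfield.closure_le.2 hS
  intro x hx
  induction hx using Subfield.closure_induction with
  | mem x hx => exact hd x hx
  | one => rw [h.one]; exact zero_mem _
  | add x y hx hy ihx ihy => rw [h.add x (hle hx) y (hle hy)]; exact add_mem ihx ihy
  | neg x hx ih => rw [h.neg (hle hx)]; exact neg_mem ih
  | inv x hx ih =>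
    rw [h.inv (hle hx)]; exact neg_mem (mul_mem (mul_mem ih (inv_mem hx)) (inv_mem hx))
  | mul x y hx hy ihx ihy =>
    rw [h.mul x (hle hx) y (hle hy)]; exact add_mem (mul_mem hx ihy) (mul_mem hy ihx)

theorem poly {N : Subfield ℂ} (hN : N ≤ F) (hd : ∀ x ∈ N, d x ∈ N) {y : ℂ} (hy : y ∈ F)
    (q : N[X]) : aeval y q ∈ F ∧ ∃ r : N[X], (∀ j, (r.coeff j : ℂ) = d (q.coeff j)) ∧
      d (aeval y q) = aeval y r + aeval y (derivative q) * d y := by
  induction q using Polynomial.induction_on' with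
  | add p q hp hq =>
    obtain ⟨hp0, r, hr, hr'⟩ := hp
    obtain ⟨hq0, s, hs, hs'⟩ := hq
    refine ⟨by rw [map_add]; exact add_mem hp0 hq0, r + s, fun j => ?_, ?_⟩
    · rw [coeff_add, coeff_add, Subfield.coe_add, Subfield.coe_add, hr, hs,
        h.add _ (hN (p.coeff j).2) _ (hN (q.coeff j).2)]
    · rw [map_add, h.add _ hp0 _ hq0, hr', hs', derivative_add, map_add, map_add]
      ring
  | monomial n c =>
    have e : aeval y (monomial n c) = (c : ℂ) * y ^ n := by rw [aeval_monomial]; rfl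
    refine ⟨by rw [e]; exact mul_mem (hN c.2) (pow_mem hy n), monomial n ⟨d c, hd c c.2⟩,
      fun j => ?_, ?_⟩
    · rw [coeff_monomial, coeff_monomial]
      split_ifs
      · rfl
      · exact h.zero.symm
    · rw [e, h.mul _ (hN c.2) _ (pow_mem hy n), aeval_monomial, derivative_monomial,
        aeval_monomial]
      have e1 : algebraMap N ℂ ⟨d c, hd c c.2⟩ = d c := rfl
      have e2 : algebraMap N ℂ (c * (n : N)) = (c : ℂ) * n := by
        rw [map_mul, map_natCast]; rfl
      rw [e1, e2]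
      cases n with
      | zero => simp [h.one]
      | succ n => rw [h.pow hy n, Nat.add_sub_cancel]; push_cast; ring

theorem int_coeff {N : Subfield ℂ} (hN : N ≤ F) (hd : ∀ x ∈ N, d x ∈ N) {y : ℂ} (hy : y ∈ F)
    (ha : IsIntegral N y) (hg : d y ∈ N) :
    d ((minpoly N y).coeff ((minpoly N y).natDegree - 1)) + (minpoly N y).natDegree * d y = 0 := by
  obtain ⟨-, r, hr, hr'⟩ := h.poly hN hd hy (minpoly N y)
  rw [minpoly.aeval, h.zero] at hr'
  have hm := minpoly.monic ha
  have hpos := minpoly.natDegree_pos ha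
  set p := minpoly N y with hp
  have hs : r + derivative p * C ⟨d y, hg⟩ = 0 := by
    by_contra hne
    have h1 := minpoly.degree_le_of_ne_zero N y hne (by
      rw [map_add, map_mul, aeval_C]; exact hr'.symm)
    have h2 : (r + derivative p * C (⟨d y, hg⟩ : N)).degree < ((p.natDegree : ℕ) : WithBot ℕ) := by
      rw [degree_lt_iff_coeff_zero]
      intro j hj
      have hj1 : p.coeff (j + 1) = 0 := coeff_eq_zero_of_natDegree_lt (by omega)
      rw [coeff_add, coeff_mul_C, coeff_derivative, hj1, zero_mul, zero_mul, add_zero]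
      apply Subtype.ext
      rw [hr]
      rcases eq_or_lt_of_le hj with e | e
      · rw [← e, hm.coeff_natDegree]; exact h.one
      · rw [coeff_eq_zero_of_natDegree_lt e]; exact h.zero
    rw [← degree_eq_natDegree hm.ne_zero] at h2
    exact absurd h1 (not_le.2 h2)
  have h3 := congrArg (fun s : N[X] => (s.coeff (p.natDegree - 1) : ℂ)) hs
  simp only [coeff_add, coeff_mul_C, coeff_derivative, coeff_zero] at h3
  rw [Nat.sub_add_cancel hpos, hm.coeff_natDegree] at h3
  push_cast at h3
  rw [hr, Nat.cast_sub hpos] at h3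
  push_cast at h3
  linear_combination h3

theorem exp_coeff {N : Subfield ℂ} (hN : N ≤ F) (hd : ∀ x ∈ N, d x ∈ N) {y g : ℂ} (hy : y ∈ F)
    (ha : IsIntegral N y) (hg : g ∈ N) (hyg : d y = y * g) :
    d ((minpoly N y).coeff 0) = (minpoly N y).natDegree * g * (minpoly N y).coeff 0 := by
  obtain ⟨-, r, hr, hr'⟩ := h.poly hN hd hy (minpoly N y)
  have h0 := minpoly.aeval N y
  rw [h0, h.zero, hyg] at hr'
  have hm := minpoly.monic ha
  have hpos := minpoly.natDegree_pos ha
  set p := minpoly N y with hp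
  have hs : r + X * derivative p * C ⟨g, hg⟩ - p * C ((p.natDegree : N) * ⟨g, hg⟩) = 0 := by
    by_contra hne
    have h1 := minpoly.degree_le_of_ne_zero N y hne (by
      rw [map_sub, map_add, map_mul, map_mul, map_mul, aeval_C, aeval_X, h0, zero_mul, sub_zero]
      have e1 : algebraMap N ℂ ⟨g, hg⟩ = g := rfl
      rw [e1]
      linear_combination -hr')
    have h2 : (r + X * derivative p * C (⟨g, hg⟩ : N)
        - p * C ((p.natDegree : N) * (⟨g, hg⟩ : N))).degree < ((p.natDegree : ℕ) : WithBot ℕ) := by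
      rw [degree_lt_iff_coeff_zero]
      intro j hj
      obtain ⟨j, rfl⟩ : ∃ i, j = i + 1 := ⟨j - 1, by omega⟩
      rw [coeff_sub, coeff_add, coeff_mul_C, coeff_mul_C, coeff_X_mul, coeff_derivative]
      apply Subtype.ext
      push_cast
      rw [hr]
      rcases eq_or_lt_of_le hj with e | e
      · rw [← e, hm.coeff_natDegree, e]
        push_cast
        rw [h.one]; ring
      · rw [coeff_eq_zero_of_natDegree_lt e]
        push_cast
        rw [h.zero]; ring
    rw [← degree_eq_natDegree hm.ne_zero] at h2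
    exact absurd h1 (not_le.2 h2)
  have h3 := congrArg (fun s : N[X] => (s.coeff 0 : ℂ)) hs
  simp only [coeff_sub, coeff_add, coeff_mul_C, coeff_X_mul_zero, coeff_zero] at h3
  push_cast at h3
  rw [hr] at h3
  linear_combination h3

theorem transc {N : Subfield ℂ} (hN : N ≤ h.ker) {y : ℂ} (hy : y ∈ F) (h1 : d y = 1) :
    Transcendental N y := by
  intro ha
  have hi := ha.isIntegral
  have := h.int_coeff (N := N) (fun x hx => (hN hx).1)
    (fun x hx => by rw [(hN hx).2]; exact zero_mem _) hy hi (by rw [h1]; exact one_mem _)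
  rw [(hN ((minpoly N y).coeff _).2).2, h1, zero_add, mul_one] at this
  exact (minpoly.natDegree_pos hi).ne' (by exact_mod_cast this)

end IsDer

end Pool.Agent.Lib.MP_55068a_an.Lv
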