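import Mathlib
import Pool.Agent.Lib.MP_55068a_an.Lv.Tower

namespace Pool.Agent.Lib.MP_55068a_an.Lv

open Set Filter Topology

/-- The two coordinate directions. -/
def dir (i : Bool) : ℝ × ℝ := if i then (1, 0) else (0, 1)

/-- The derivative in the direction `dir i`. -/
noncomputable def D (i : Bool) (f : ℝ × ℝ → ℂ) : ℝ × ℝ → ℂ := fun p => fderiv ℝ f p (dir i)

variable {B : Set (ℝ × ℝ)}

theorem D_analytic (i : Bool) {f : ℝ × ℝ → ℂ} (hf : AnalyticOnNhd ℝ f B) :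
    AnalyticOnNhd ℝ (D i f) B := fun p hp =>
  ((ContinuousLinearMap.apply ℝ ℂ (dir i)).analyticAt _).comp (hf.fderiv p hp)

theorem D_add (i : Bool) {f g : ℝ × ℝ → ℂ} {p : ℝ × ℝ} (hf : AnalyticAt ℝ f p)
    (hg : AnalyticAt ℝ g p) : D i (f + g) p = D i f p + D i g p := by
  unfold D
  rw [fderiv_add hf.differentiableAt hg.differentiableAt]
  rfl

theorem D_neg (i : Bool) {f : ℝ × ℝ → ℂ} {p : ℝ × ℝ} : D i (-f) p = -D i f p := by
  unfold D
  rw [fderiv_neg]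
  rfl

theorem D_mul (i : Bool) {f g : ℝ × ℝ → ℂ} {p : ℝ × ℝ} (hf : AnalyticAt ℝ f p)
    (hg : AnalyticAt ℝ g p) : D i (f * g) p = f p * D i g p + g p * D i f p := by
  unfold D
  rw [fderiv_mul hf.differentiableAt hg.differentiableAt]
  rfl

theorem D_congr (i : Bool) (hB : IsOpen B) {f g : ℝ × ℝ → ℂ} {p : ℝ × ℝ} (hp : p ∈ B)
    (h : ∀ q ∈ B, f q = g q) : D i f p = D i g p := by
  unfold D
  have : f =ᶠ[𝓝 p] g := Filter.mem_of_superset (hB.mem_nhds hp) h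
  rw [this.fderiv_eq]

theorem D_const (i : Bool) (c : ℂ) (p : ℝ × ℝ) : D i (fun _ => c) p = 0 := by
  unfold D
  rw [fderiv_fun_const]
  rfl

theorem D_exp (i : Bool) {f : ℝ × ℝ → ℂ} {p : ℝ × ℝ} (hf : AnalyticAt ℝ f p) :
    D i (fun q => Complex.exp (f q)) p = Complex.exp (f p) * D i f p := by
  unfold D
  rw [hf.differentiableAt.hasFDerivAt.cexp.fderiv]
  rfl

theorem exists_ring {S : Set (ℝ × ℝ → ℂ)} (hS : S.Countable) (hA : ∀ g ∈ S, AnalyticOnNhd ℝ g B) :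
    ∃ R : Set (ℝ × ℝ → ℂ), S ⊆ R ∧ R.Countable ∧ (∀ g ∈ R, AnalyticOnNhd ℝ g B) ∧ 1 ∈ R ∧
      (∀ f ∈ R, ∀ g ∈ R, f + g ∈ R) ∧ (∀ f ∈ R, ∀ g ∈ R, f * g ∈ R) ∧ (∀ f ∈ R, -f ∈ R) ∧
      ∀ i, ∀ f ∈ R, D i f ∈ R := by
  let T : ℕ → Set (ℝ × ℝ → ℂ) := fun n => Nat.rec (insert 1 S)
    (fun _ X => X ∪ image2 (· + ·) X X ∪ image2 (· * ·) X X ∪ (fun f => -f) '' X ∪ D true '' X
      ∪ D false '' X) n
  have hT : ∀ n, T (n + 1) = T n ∪ image2 (· + ·) (T n) (T n) ∪ image2 (· * ·) (T n) (T n)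
      ∪ (fun f => -f) '' T n ∪ D true '' T n ∪ D false '' T n := fun n => rfl
  have hmono : Monotone T := monotone_nat_of_le_succ fun n x hx => by
    rw [hT]; simp only [mem_union]; tauto
  have hc : ∀ n, (T n).Countable := by
    intro n
    induction n with
    | zero => exact hS.insert 1
    | succ n ih =>
      rw [hT]
      exact (((((ih.union (ih.image2 ih _)).union (ih.image2 ih _)).union (ih.image _)).union
        (ih.image _)).union (ih.image _))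
  have ha : ∀ n, ∀ g ∈ T n, AnalyticOnNhd ℝ g B := by
    intro n
    induction n with
    | zero =>
      rintro g (rfl | hg)
      exacts [analyticOnNhd_const, hA g hg]
    | succ n ih =>
      rw [hT]
      rintro g (((((hg | ⟨f, hf, g, hg, rfl⟩) | ⟨f, hf, g, hg, rfl⟩) | ⟨f, hf, rfl⟩)
        | ⟨f, hf, rfl⟩) | ⟨f, hf, rfl⟩)
      exacts [ih g hg, (ih f hf).add (ih g hg), (ih f hf).mul (ih g hg), (ih f hf).neg,
        D_analytic _ (ih f hf), D_analytic _ (ih f hf)]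
  have h2 : ∀ f ∈ ⋃ n, T n, ∀ g ∈ ⋃ n, T n, ∃ n, f ∈ T n ∧ g ∈ T n := by
    intro f hf g hg
    obtain ⟨m, hm⟩ := mem_iUnion.1 hf
    obtain ⟨n, hn⟩ := mem_iUnion.1 hg
    exact ⟨max m n, hmono (le_max_left _ _) hm, hmono (le_max_right _ _) hn⟩
  refine ⟨⋃ n, T n, fun g hg => mem_iUnion.2 ⟨0, Or.inr hg⟩, countable_iUnion hc,
    fun g hg => ?_, mem_iUnion.2 ⟨0, Or.inl rfl⟩, fun f hf g hg => ?_, fun f hf g hg => ?_,
    fun f hf => ?_, fun i f hf => ?_⟩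
  · obtain ⟨n, hn⟩ := mem_iUnion.1 hg
    exact ha n g hn
  · obtain ⟨n, h3, h4⟩ := h2 f hf g hg
    exact mem_iUnion.2 ⟨n + 1, Or.inl (Or.inl (Or.inl (Or.inl (Or.inr ⟨f, h3, g, h4, rfl⟩))))⟩
  · obtain ⟨n, h3, h4⟩ := h2 f hf g hg
    exact mem_iUnion.2 ⟨n + 1, Or.inl (Or.inl (Or.inl (Or.inr ⟨f, h3, g, h4, rfl⟩)))⟩
  · obtain ⟨n, hn⟩ := mem_iUnion.1 hf
    exact mem_iUnion.2 ⟨n + 1, Or.inl (Or.inl (Or.inr ⟨f, hn, rfl⟩))⟩
  · obtain ⟨n, hn⟩ := mem_iUnion.1 hf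
    cases i
    · exact mem_iUnion.2 ⟨n + 1, Or.inr ⟨f, hn, rfl⟩⟩
    · exact mem_iUnion.2 ⟨n + 1, Or.inl (Or.inr ⟨f, hn, rfl⟩)⟩

theorem eventually_generic (hB : IsOpen B) {R : Set (ℝ × ℝ → ℂ)} (hR : R.Countable)
    (hA : ∀ g ∈ R, AnalyticOnNhd ℝ g B) :
    ∀ᶠ P in residual (ℝ × ℝ), ∀ g ∈ R, P ∈ B → g P = 0 → g =ᶠ[𝓝 P] fun _ => 0 := by
  rw [eventually_countable_ball hR]
  intro g hg
  have ho : IsOpen (B ∩ g ⁻¹' {0}ᶜ ∪ interior {q | g q = 0} ∪ (closure B)ᶜ) :=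
    (((hA g hg).continuousOn.isOpen_inter_preimage hB isOpen_compl_singleton).union
      isOpen_interior).union isClosed_closure.isOpen_compl
  have hd : Dense (B ∩ g ⁻¹' {0}ᶜ ∪ interior {q | g q = 0} ∪ (closure B)ᶜ) := by
    rw [dense_iff_inter_open]
    intro W hW hWne
    by_cases hWB : (W ∩ B).Nonempty
    · obtain ⟨q, hq⟩ := hWB
      by_cases hz : ∀ s ∈ W ∩ B, g s = 0
      · exact ⟨q, hq.1, Or.inl (Or.inr (interior_maximal hz (hW.inter hB) hq))⟩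
      · push Not at hz
        obtain ⟨s, hs, h0⟩ := hz
        exact ⟨s, hs.1, Or.inl (Or.inl ⟨hs.2, h0⟩)⟩
    · obtain ⟨q, hq⟩ := hWne
      exact ⟨q, hq, Or.inr fun hcl => hWB (mem_closure_iff.1 hcl W hW hq)⟩
  filter_upwards [residual_of_dense_open ho hd] with P hP hPB h0
  rcases hP with (h | h) | h
  · exact absurd h0 h.2
  · exact mem_interior_iff_mem_nhds.1 h
  · exact absurd (subset_closure hPB) h

theorem eventually_field (hB : IsOpen B) {S : Set (ℝ × ℝ → ℂ)} (hS : S.Countable)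
    (hA : ∀ g ∈ S, AnalyticOnNhd ℝ g B) :
    ∀ᶠ P in residual (ℝ × ℝ), P ∈ B → ∃ (F : Subfield ℂ) (d : Bool → ℂ → ℂ),
      (∀ i, IsDer F (d i)) ∧ ∀ g ∈ S, g P ∈ F ∧ ∀ i, d i (g P) = D i g P := by
  classical
  obtain ⟨R, hSR, hR, hA, h1, hadd, hmul, hneg, hD⟩ := exists_ring hS hA
  filter_upwards [eventually_generic hB hR hA] with P hgen hP
  have hAP : ∀ g ∈ R, AnalyticAt ℝ g P := fun g hg => hA g hg P hP
  let Rep : ℂ → (ℝ × ℝ → ℂ) × (ℝ × ℝ → ℂ) → Prop :=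
    fun x u => u.1 ∈ R ∧ u.2 ∈ R ∧ u.2 P ≠ 0 ∧ x * u.2 P = u.1 P
  let d : Bool → ℂ → ℂ := fun i x =>
    if h : ∃ u, Rep x u then (D i h.choose.1 P - x * D i h.choose.2 P) / h.choose.2 P else 0
  have spec : ∀ i x f g, f ∈ R → g ∈ R → g P ≠ 0 → x * g P = f P →
      d i x * g P = D i f P - x * D i g P := by
    intro i x f g hf hg hg0 hx
    have h : ∃ u, Rep x u := ⟨(f, g), hf, hg, hg0, hx⟩
    obtain ⟨hf', hg', hg0', hx'⟩ := h.choose_spec
    have e : d i x = (D i h.choose.1 P - x * D i h.choose.2 P) / h.choose.2 P := dif_pos h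
    set f' := h.choose.1
    set g' := h.choose.2
    have hz := hgen _ (hadd _ (hmul f hf g' hg') _ (hneg _ (hmul f' hf' g hg))) hP (by
      simp only [Pi.add_apply, Pi.mul_apply, Pi.neg_apply]
      rw [← hx, ← hx']; ring)
    have hD0 : D i (f * g' + -(f' * g)) P = D i (fun _ => 0) P := by
      unfold D
      rw [hz.fderiv_eq]
    rw [D_const, D_add i (hAP _ (hmul f hf g' hg')) (hAP _ (hneg _ (hmul f' hf' g hg))), D_neg,
      D_mul i (hAP f hf) (hAP g' hg'), D_mul i (hAP f' hf') (hAP g hg), ← hx, ← hx'] at hD0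
    rw [e]
    field_simp
    linear_combination -hD0
  have h0 : (1 : ℝ × ℝ → ℂ) P ≠ 0 := one_ne_zero
  let F : Subfield ℂ :=
    { carrier := {x | ∃ f ∈ R, ∃ g ∈ R, g P ≠ 0 ∧ x * g P = f P}
      mul_mem' := by
        rintro x y ⟨f, hf, g, hg, hg0, hx⟩ ⟨f', hf', g', hg', hg0', hy⟩
        refine ⟨_, hmul f hf f' hf', _, hmul g hg g' hg', mul_ne_zero hg0 hg0', ?_⟩
        simp only [Pi.mul_apply]
        rw [← hx, ← hy]; ring
      one_mem' := ⟨1, h1, 1, h1, h0, one_mul _⟩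
      add_mem' := by
        rintro x y ⟨f, hf, g, hg, hg0, hx⟩ ⟨f', hf', g', hg', hg0', hy⟩
        refine ⟨_, hadd _ (hmul f hf g' hg') _ (hmul f' hf' g hg), _, hmul g hg g' hg',
          mul_ne_zero hg0 hg0', ?_⟩
        simp only [Pi.mul_apply, Pi.add_apply]
        rw [← hx, ← hy]; ring
      zero_mem' := ⟨_, hadd 1 h1 _ (hneg 1 h1), 1, h1, h0, by simp⟩
      neg_mem' := by
        rintro x ⟨f, hf, g, hg, hg0, hx⟩
        refine ⟨_, hneg f hf, g, hg, hg0, ?_⟩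
        simp only [Pi.neg_apply]
        rw [← hx]; ring
      inv_mem' := by
        rintro x ⟨f, hf, g, hg, hg0, hx⟩
        rcases eq_or_ne x 0 with rfl | hx0
        · exact ⟨f, hf, g, hg, hg0, by rwa [inv_zero]⟩
        · refine ⟨g, hg, f, hf, ?_, ?_⟩
          · rw [← hx]; exact mul_ne_zero hx0 hg0
          · rw [← hx]; field_simp }
  refine ⟨F, d, fun i => ⟨?_, ?_, ?_⟩, fun g hg => ⟨⟨g, hSR hg, 1, h1, h0, mul_one _⟩,
    fun i => ?_⟩⟩
  · rintro x ⟨f, hf, g, hg, hg0, hx⟩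
    refine ⟨_, hadd _ (hmul _ (hD i f hf) g hg) _ (hneg _ (hmul f hf _ (hD i g hg))), _,
      hmul g hg g hg, mul_ne_zero hg0 hg0, ?_⟩
    have := spec i x f g hf hg hg0 hx
    simp only [Pi.mul_apply, Pi.add_apply, Pi.neg_apply]
    rw [← hx]
    linear_combination g P * this
  · rintro x ⟨f, hf, g, hg, hg0, hx⟩ y ⟨f', hf', g', hg', hg0', hy⟩
    have e1 := spec i x f g hf hg hg0 hx
    have e2 := spec i y f' g' hf' hg' hg0' hy
    have e3 := spec i (x + y) _ _ (hadd _ (hmul f hf g' hg') _ (hmul f' hf' g hg))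
      (hmul g hg g' hg') (mul_ne_zero hg0 hg0') (by
        simp only [Pi.mul_apply, Pi.add_apply]
        rw [← hx, ← hy]; ring)
    rw [D_add i (hAP _ (hmul f hf g' hg')) (hAP _ (hmul f' hf' g hg)),
      D_mul i (hAP f hf) (hAP g' hg'), D_mul i (hAP f' hf') (hAP g hg),
      D_mul i (hAP g hg) (hAP g' hg'), Pi.mul_apply, ← hx, ← hy] at e3
    refine mul_right_cancel₀ (mul_ne_zero hg0 hg0') ?_
    linear_combination e3 - g' P * e1 - g P * e2
  · rintro x ⟨f, hf, g, hg, hg0, hx⟩ y ⟨f', hf', g', hg', hg0', hy⟩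
    have e1 := spec i x f g hf hg hg0 hx
    have e2 := spec i y f' g' hf' hg' hg0' hy
    have e3 := spec i (x * y) _ _ (hmul f hf f' hf')
      (hmul g hg g' hg') (mul_ne_zero hg0 hg0') (by
        simp only [Pi.mul_apply]
        rw [← hx, ← hy]; ring)
    rw [D_mul i (hAP f hf) (hAP f' hf'), D_mul i (hAP g hg) (hAP g' hg'), Pi.mul_apply, ← hx,
      ← hy] at e3
    refine mul_right_cancel₀ (mul_ne_zero hg0 hg0') ?_
    linear_combination e3 - y * g' P * e1 - x * g P * e2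
  · have := spec i (g P) g 1 (hSR hg) h1 h0 (mul_one _)
    have e : D i (1 : ℝ × ℝ → ℂ) P = 0 := D_const i 1 P
    rw [e, mul_zero, sub_zero, Pi.one_apply, mul_one] at this
    exact this

end Pool.Agent.Lib.MP_55068a_an.Lv
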