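import Mathlib
import Pool.Agent.Lib.MP_55068a_an.Lv.Tower

namespace Pool.Agent.Lib.MP_55068a_an.Lv

open Polynomial

theorem indep_step {K N : Subfield ℂ} {ι : Type} {x : ι → ℂ} (hx : AlgebraicIndependent K x)
    (hK : K ≤ N) (hxN : ∀ i, x i ∈ N) {t : ℂ} (ht : Transcendental N t) :
    AlgebraicIndependent K (Sum.elim (fun _ : Unit => t) x) := by
  refine hx.sumElim ?_
  rw [algebraicIndependent_unique_type_iff]
  have hle : ∀ z ∈ Algebra.adjoin K (Set.range x), z ∈ N := by
    intro z hz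
    induction hz using Algebra.adjoin_induction with
    | mem z hz => obtain ⟨i, rfl⟩ := hz; exact hxN i
    | algebraMap c => exact hK c.2
    | add y z _ _ hy hz => exact add_mem hy hz
    | mul y z _ _ hy hz => exact mul_mem hy hz
  let φ : Algebra.adjoin K (Set.range x) →+* N :=
    (Algebra.adjoin K (Set.range x)).val.toRingHom.codRestrict N fun z => hle z z.2
  refine Transcendental.of_ringHom_of_comp_eq φ (RingHom.id ℂ) ht ?_ ?_
  · intro y z hyz
    exact Subtype.ext (congrArg (fun w : N => (w : ℂ)) hyz)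
  · ext z; rfl

theorem indep_swap {K : Subfield ℂ} {ι : Type} {x : ι → ℂ} {t : ℂ}
    (h : AlgebraicIndependent K (Sum.elim (fun _ : Unit => t) x)) :
    AlgebraicIndependent (IntermediateField.adjoin K ({t} : Set ℂ)).toSubfield x := by
  have h1 : AlgebraicIndependent K (Sum.elim x fun _ : Unit => t) := by
    have := h.comp Sum.swap (Equiv.sumComm ι Unit).injective
    have e : (Sum.elim (fun _ : Unit => t) x) ∘ Sum.swap = Sum.elim x fun _ : Unit => t := by
      funext i; cases i <;> rfl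
    rwa [e] at this
  have h2 := (AlgebraicIndependent.sumElim_iff.1 h1).2
  rw [Set.range_const, ← IntermediateField.algebraicIndependent_adjoin_iff] at h2
  exact h2

theorem rad_mono {E₁ E₂ : Type} [Field E₁] [Field E₂] [Algebra E₁ ℂ] [Algebra E₂ ℂ]
    (h : ∀ c : E₁, ∃ e : E₂, algebraMap E₂ ℂ e = algebraMap E₁ ℂ c) {x : ℂ}
    (hx : x ∈ solvableByRad E₁ ℂ) : x ∈ solvableByRad E₂ ℂ := by
  induction hx using solvableByRad.induction with
  | mem c => obtain ⟨e, he⟩ := h c; rw [← he]; exact IntermediateField.algebraMap_mem _ e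
  | add x y _ _ hx hy => exact add_mem hx hy
  | mul x y _ _ hx hy => exact mul_mem hx hy
  | rad n x hn _ hx => exact solvableByRad.rad_mem hn hx

/-- A differential subfield containing the constants, `a` and `b`, inside the radical closure of
`K(a, b)` for some field `K` over which `a`, `b` are algebraically independent. -/
structure Good (F : Subfield ℂ) (d : Bool → ℂ → ℂ) (a b : ℂ) (M : Subfield ℂ) : Prop where
  le : M ≤ F
  der : ∀ i, ∀ x ∈ M, d i x ∈ M
  const : ∀ c ∈ F, (∀ i, d i c = 0) → c ∈ M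
  ha : a ∈ M
  hb : b ∈ M
  rad : ∃ K : Subfield ℂ, K ≤ M ∧ AlgebraicIndependent K ![a, b] ∧
    ∀ x ∈ M, x ∈ solvableByRad (IntermediateField.adjoin K ({a, b} : Set ℂ)) ℂ

variable {F : Subfield ℂ} {d : Bool → ℂ → ℂ} {a b : ℂ}

theorem mem_rad_of_mem {K : Subfield ℂ} {S : Set ℂ} {x : ℂ}
    (hx : x ∈ IntermediateField.adjoin K S) :
    x ∈ solvableByRad (IntermediateField.adjoin K S) ℂ :=
  IntermediateField.algebraMap_mem _ (⟨x, hx⟩ : IntermediateField.adjoin K S)

theorem good_base (h : ∀ i, IsDer F (d i)) (ha : a ∈ F) (hb : b ∈ F) (h1 : d true a = 1)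
    (h2 : d false a = 0) (h3 : d true b = 0) (h4 : d false b = 1) : ∃ M, Good F d a b M := by
  set K : Subfield ℂ := (h true).ker ⊓ (h false).ker with hK
  have hKF : K ≤ F := fun x hx => hx.1.1
  have hsub : (K : Set ℂ) ∪ {a, b} ⊆ F := by
    rintro x (hx | rfl | rfl)
    exacts [hKF hx, ha, hb]
  refine ⟨Subfield.closure ((K : Set ℂ) ∪ {a, b}), Subfield.closure_le.2 hsub, fun i => ?_,
    fun c hc h0 => Subfield.subset_closure (Or.inl ⟨⟨hc, h0 true⟩, ⟨hc, h0 false⟩⟩),
    Subfield.subset_closure (by simp), Subfield.subset_closure (by simp),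
    K, fun x hx => Subfield.subset_closure (Or.inl hx), ?_, ?_⟩
  · refine (h i).closure hsub ?_
    rintro x (hx | rfl | rfl) <;> cases i
    · rw [hx.2.2]; exact zero_mem _
    · rw [hx.1.2]; exact zero_mem _
    · rw [h2]; exact zero_mem _
    · rw [h1]; exact one_mem _
    · rw [h4]; exact one_mem _
    · rw [h3]; exact zero_mem _
  · have t1 : Transcendental K b := (h false).transc inf_le_right hb h4
    have t2 : Transcendental (h true).ker a := (h true).transc le_rfl ha h1
    have i1 : AlgebraicIndependent K fun _ : Unit => b := algebraicIndependent_unique_type_iff.2 t1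
    have i2 := indep_step i1 (N := (h true).ker) inf_le_left (fun _ => ⟨hb, h3⟩) t2
    have := i2.comp (![Sum.inl (), Sum.inr ()] : Fin 2 → Unit ⊕ Unit) (by decide)
    have e : (Sum.elim (fun _ : Unit => a) fun _ : Unit => b)
        ∘ (![Sum.inl (), Sum.inr ()] : Fin 2 → Unit ⊕ Unit) = ![a, b] := by
      funext i; fin_cases i <;> rfl
    rwa [e] at this
  · have : Subfield.closure ((K : Set ℂ) ∪ {a, b})
        ≤ (solvableByRad (IntermediateField.adjoin K ({a, b} : Set ℂ)) ℂ).toSubfield := by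
      rw [Subfield.closure_le]
      rintro x (hx | hx)
      · exact mem_rad_of_mem (IntermediateField.algebraMap_mem _ (⟨x, hx⟩ : K))
      · exact mem_rad_of_mem (IntermediateField.subset_adjoin _ _ hx)
    exact fun x hx => this hx

theorem Good.step (h : ∀ i, IsDer F (d i)) {M : Subfield ℂ} (hM : Good F d a b M) {y : ℂ}
    (hy : y ∈ F) (hd : ∀ i, d i y ∈ Subfield.closure ((M : Set ℂ) ∪ {y}))
    (halg : IsIntegral M y → ∃ n : ℕ, n ≠ 0 ∧ y ^ n ∈ M) :
    ∃ M', Good F d a b M' ∧ M ≤ M' ∧ y ∈ M' := by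
  have hsub : (M : Set ℂ) ∪ {y} ⊆ F := by
    rintro x (hx | rfl)
    exacts [hM.le hx, hy]
  have hle : M ≤ Subfield.closure ((M : Set ℂ) ∪ {y}) :=
    fun x hx => Subfield.subset_closure (Or.inl hx)
  have hyM : y ∈ Subfield.closure ((M : Set ℂ) ∪ {y}) := Subfield.subset_closure (by simp)
  refine ⟨_, ⟨Subfield.closure_le.2 hsub, fun i => (h i).closure hsub ?_,
    fun c hc h0 => hle (hM.const c hc h0), hle hM.ha, hle hM.hb, ?_⟩, hle, hyM⟩
  · rintro x (hx | rfl)
    exacts [hle (hM.der i x hx), hd i]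
  obtain ⟨K, hK, hind, hrad⟩ := hM.rad
  by_cases ht : IsAlgebraic M y
  · obtain ⟨n, hn, hyn⟩ := halg ht.isIntegral
    refine ⟨K, hK.trans hle, hind, ?_⟩
    have : Subfield.closure ((M : Set ℂ) ∪ {y})
        ≤ (solvableByRad (IntermediateField.adjoin K ({a, b} : Set ℂ)) ℂ).toSubfield := by
      rw [Subfield.closure_le]
      rintro x (hx | rfl)
      · exact hrad x hx
      · exact solvableByRad.rad_mem hn (hrad _ hyn)
    exact fun x hx => this hx
  · have i1 := indep_swap (indep_step hind hK (fun i => by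
      fin_cases i
      exacts [hM.ha, hM.hb]) ht)
    set K' := (IntermediateField.adjoin K ({y} : Set ℂ)).toSubfield with hK'
    have hKK : K ≤ K' := fun x hx =>
      IntermediateField.algebraMap_mem (IntermediateField.adjoin K ({y} : Set ℂ)) (⟨x, hx⟩ : K)
    have hyK : y ∈ K' := IntermediateField.subset_adjoin K ({y} : Set ℂ) rfl
    refine ⟨K', ?_, i1, ?_⟩
    · rw [hK', IntermediateField.adjoin_toSubfield, Subfield.closure_le]
      rintro x (⟨c, rfl⟩ | rfl)
      exacts [hle (hK c.2), hyM]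
    · have hadj : ∀ z ∈ IntermediateField.adjoin K ({a, b} : Set ℂ),
          z ∈ IntermediateField.adjoin K' ({a, b} : Set ℂ) := by
        have : (IntermediateField.adjoin K ({a, b} : Set ℂ)).toSubfield
            ≤ (IntermediateField.adjoin K' ({a, b} : Set ℂ)).toSubfield := by
          rw [IntermediateField.adjoin_toSubfield, Subfield.closure_le]
          rintro x (⟨c, rfl⟩ | hx)
          · exact IntermediateField.algebraMap_mem _ (⟨c, hKK c.2⟩ : K')
          · exact IntermediateField.subset_adjoin _ _ hx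
        exact fun z hz => this hz
      have : Subfield.closure ((M : Set ℂ) ∪ {y})
          ≤ (solvableByRad (IntermediateField.adjoin K' ({a, b} : Set ℂ)) ℂ).toSubfield := by
        rw [Subfield.closure_le]
        rintro x (hx | rfl)
        · exact rad_mono (fun c => ⟨⟨c, hadj c c.2⟩, rfl⟩) (hrad x hx)
        · exact mem_rad_of_mem (IntermediateField.algebraMap_mem _ (⟨x, hyK⟩ : K'))
      exact fun x hx => this hx

theorem Good.step_int (h : ∀ i, IsDer F (d i)) {M : Subfield ℂ} (hM : Good F d a b M) {y : ℂ}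
    (hy : y ∈ F) (hd : ∀ i, d i y ∈ M) : ∃ M', Good F d a b M' ∧ M ≤ M' ∧ y ∈ M' := by
  refine hM.step h hy (fun i => Subfield.subset_closure (Or.inl (hd i))) fun hi => ⟨1, one_ne_zero, ?_⟩
  set c := (minpoly M y).coeff ((minpoly M y).natDegree - 1) with hc
  set n := (minpoly M y).natDegree with hn
  have hn0 : (n : ℂ) ≠ 0 := by exact_mod_cast (minpoly.natDegree_pos hi).ne'
  have hny : (n : ℂ) * y ∈ F := mul_mem (natCast_mem F n) hy
  have h1 : (c : ℂ) + n * y ∈ M := by
    refine hM.const _ (add_mem (hM.le c.2) hny) fun i => ?_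
    rw [(h i).add _ (hM.le c.2) _ hny, (h i).mul _ (natCast_mem F n) _ hy, (h i).nat, mul_zero,
      add_zero]
    exact (h i).int_coeff hM.le (hM.der i) hy hi (hd i)
  have e : y ^ 1 = ((c : ℂ) + n * y - c) / n := by field_simp; ring
  rw [e]
  exact div_mem (sub_mem h1 c.2) (natCast_mem M n)

theorem Good.step_exp (h : ∀ i, IsDer F (d i)) {M : Subfield ℂ} (hM : Good F d a b M) {y : ℂ}
    (hy : y ∈ F) (hd : ∀ i, ∃ g ∈ M, d i y = y * g) :
    ∃ M', Good F d a b M' ∧ M ≤ M' ∧ y ∈ M' := by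
  refine hM.step h hy (fun i => ?_) fun hi => ?_
  · obtain ⟨g, hg, e⟩ := hd i
    rw [e]
    exact mul_mem (Subfield.subset_closure (by simp)) (Subfield.subset_closure (Or.inl hg))
  rcases eq_or_ne y 0 with rfl | hy0
  · exact ⟨1, one_ne_zero, by simp⟩
  obtain ⟨n, hn⟩ : ∃ n, (minpoly M y).natDegree = n + 1 :=
    ⟨_, (Nat.sub_add_cancel (minpoly.natDegree_pos hi)).symm⟩
  set c := (minpoly M y).coeff 0 with hc
  have hc0 : (c : ℂ) ≠ 0 := fun h0 => minpoly.coeff_zero_ne_zero hi hy0 (Subtype.ext h0)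
  refine ⟨n + 1, n.succ_ne_zero, ?_⟩
  have h1 : y ^ (n + 1) * (c : ℂ)⁻¹ ∈ M := by
    refine hM.const _ (mul_mem (pow_mem hy _) (inv_mem (hM.le c.2))) fun i => ?_
    obtain ⟨g, hg, e⟩ := hd i
    have h2 := (h i).exp_coeff hM.le (hM.der i) hy hi hg e
    rw [← hc, hn] at h2
    rw [(h i).mul _ (pow_mem hy _) _ (inv_mem (hM.le c.2)), (h i).inv (hM.le c.2), (h i).pow hy,
      h2, e]
    push_cast
    field_simp
    ring
  have e : y ^ (n + 1) = y ^ (n + 1) * (c : ℂ)⁻¹ * c := by field_simp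
  rw [e]
  exact mul_mem h1 c.2

theorem Good.step_root (h : ∀ i, IsDer F (d i)) {M : Subfield ℂ} (hM : Good F d a b M) {y : ℂ}
    (hy : y ∈ F) {n : ℕ} (hn : n ≠ 0) (hyn : y ^ n ∈ M) :
    ∃ M', Good F d a b M' ∧ M ≤ M' ∧ y ∈ M' := by
  refine hM.step_exp h hy fun i => ?_
  rcases eq_or_ne y 0 with rfl | hy0
  · exact ⟨0, zero_mem _, by rw [(h i).zero, zero_mul]⟩
  obtain ⟨m, rfl⟩ := Nat.exists_eq_succ_of_ne_zero hn
  refine ⟨d i (y ^ (m + 1)) / (((m + 1 : ℕ) : ℂ) * y ^ (m + 1)),
    div_mem (hM.der i _ hyn) (mul_mem (natCast_mem M _) hyn), ?_⟩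
  have : ((m : ℂ) + 1) ≠ 0 := by exact_mod_cast m.succ_ne_zero
  rw [(h i).pow hy]
  push_cast
  field_simp
  ring

end Pool.Agent.Lib.MP_55068a_an.Lv
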