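import Mathlib
import Pool.Agent.Lib.MP_55068a_an.LvDefs
import Pool.Agent.Lib.MP_55068a_an.DyDefs
import Pool.Agent.Lib.MP_55068a_an.Lv.Good
import Pool.Agent.Lib.MP_55068a_an.Lv.Germ

namespace Pool.Agent.Lib.MP_55068a_an.Lv

open Set

variable {B : Set (ℝ × ℝ)}

theorem hasF_fst (p : ℝ × ℝ) : HasFDerivAt (fun p : ℝ × ℝ => (p.1 : ℂ))
    (Complex.ofRealCLM.comp (ContinuousLinearMap.fst ℝ ℝ ℝ)) p :=
  (Complex.ofRealCLM.comp (ContinuousLinearMap.fst ℝ ℝ ℝ)).hasFDerivAt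

theorem hasF_snd (p : ℝ × ℝ) : HasFDerivAt (fun p : ℝ × ℝ => (p.2 : ℂ))
    (Complex.ofRealCLM.comp (ContinuousLinearMap.snd ℝ ℝ ℝ)) p :=
  (Complex.ofRealCLM.comp (ContinuousLinearMap.snd ℝ ℝ ℝ)).hasFDerivAt

theorem Liouv.analytic {f : ℝ × ℝ → ℂ} (h : Liouv B f) : AnalyticOnNhd ℝ f B := by
  induction h with
  | const c => exact analyticOnNhd_const
  | fst => exact fun p _ => (Complex.ofRealCLM.comp (ContinuousLinearMap.fst ℝ ℝ ℝ)).analyticAt p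
  | snd => exact fun p _ => (Complex.ofRealCLM.comp (ContinuousLinearMap.snd ℝ ℝ ℝ)).analyticAt p
  | add _ _ hf hg => exact hf.add hg
  | mul _ _ hf hg => exact hf.mul hg
  | inv _ h0 hg => exact hg.inv h0
  | exp _ hg =>
    exact fun p hp => (analyticAt_cexp.restrictScalars (𝕜 := ℝ)).comp (hg p hp)
  | root n hn ha _ e hg => exact ha
  | log ha _ e hg => exact ha
  | prim ha _ _ e1 e2 hg hh => exact ha

/-- Evaluation at `P` carries the derivatives of the members of `S` to the derivations `d`. -/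
def Compat (S : Set (ℝ × ℝ → ℂ)) (P : ℝ × ℝ) (F : Subfield ℂ) (d : Bool → ℂ → ℂ) : Prop :=
  ∀ g ∈ S, g P ∈ F ∧ ∀ i, d i (g P) = D i g P

/-- The value of `f` at a point compatible with a countable family lies in a good field. -/
def Reach (B : Set (ℝ × ℝ)) (f : ℝ × ℝ → ℂ) : Prop :=
  ∃ S : Set (ℝ × ℝ → ℂ), S.Countable ∧ (∀ g ∈ S, AnalyticOnNhd ℝ g B) ∧ f ∈ S ∧
    ∀ P ∈ B, ∀ F d, (∀ i, IsDer F (d i)) → Compat S P F d →
      ∀ M, Good F d P.1 P.2 M → ∃ M', Good F d P.1 P.2 M' ∧ M ≤ M' ∧ f P ∈ M'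

theorem reach_two {f g h : ℝ × ℝ → ℂ} (hf : AnalyticOnNhd ℝ f B) (hg : Reach B g) (hh : Reach B h)
    (H : ∀ P ∈ B, ∀ F d, (∀ i, IsDer F (d i)) → Compat {f, g} P F d →
      ∀ M, Good F d P.1 P.2 M → g P ∈ M → h P ∈ M →
        ∃ M', Good F d P.1 P.2 M' ∧ M ≤ M' ∧ f P ∈ M') : Reach B f := by
  obtain ⟨S, hS, hA, hgS, H1⟩ := hg
  obtain ⟨T, hT, hA', -, H2⟩ := hh
  refine ⟨insert f (S ∪ T), (hS.union hT).insert f, ?_, Or.inl rfl, fun P hP F d hd hc M hM => ?_⟩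
  · rintro u (rfl | hu | hu)
    exacts [hf, hA u hu, hA' u hu]
  obtain ⟨M1, hM1, l1, m1⟩ := H1 P hP F d hd (fun u hu => hc u (Or.inr (Or.inl hu))) M hM
  obtain ⟨M2, hM2, l2, m2⟩ := H2 P hP F d hd (fun u hu => hc u (Or.inr (Or.inr hu))) M1 hM1
  obtain ⟨M3, hM3, l3, m3⟩ := H P hP F d hd (by
    rintro u (rfl | rfl)
    exacts [hc _ (Or.inl rfl), hc _ (Or.inr (Or.inl hgS))]) M2 hM2 (l2 m1) m2
  exact ⟨M3, hM3, (l1.trans l2).trans l3, m3⟩

theorem reach_zero {f : ℝ × ℝ → ℂ} (hf : AnalyticOnNhd ℝ f B)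
    (H : ∀ P ∈ B, ∀ F d, Compat {f} P F d → ∀ M, Good F d P.1 P.2 M → f P ∈ M) : Reach B f :=
  ⟨{f}, countable_singleton f, by rintro _ rfl; exact hf, rfl,
    fun P hP F d _ hc M hM => ⟨M, hM, le_rfl, H P hP F d hc M hM⟩⟩

theorem Liouv.reach (hB : IsOpen B) {f : ℝ × ℝ → ℂ} (h : Liouv B f) : Reach B f := by
  have ha := h.analytic
  induction h with
  | const c =>
    exact reach_zero ha fun P _ F d hc M hM =>
      hM.const c (hc _ rfl).1 fun i => ((hc _ rfl).2 i).trans (D_const i c P)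
  | fst => exact reach_zero ha fun P _ F d _ M hM => hM.ha
  | snd => exact reach_zero ha fun P _ F d _ M hM => hM.hb
  | add hf hg i1 i2 =>
    exact reach_two ha (i1 hf.analytic) (i2 hg.analytic) fun P _ F d _ _ M hM m1 m2 =>
      ⟨M, hM, le_rfl, add_mem m1 m2⟩
  | mul hf hg i1 i2 =>
    exact reach_two ha (i1 hf.analytic) (i2 hg.analytic) fun P _ F d _ _ M hM m1 m2 =>
      ⟨M, hM, le_rfl, mul_mem m1 m2⟩
  | inv hg _ i1 =>
    exact reach_two ha (i1 hg.analytic) (i1 hg.analytic) fun P _ F d _ _ M hM m1 _ =>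
      ⟨M, hM, le_rfl, inv_mem m1⟩
  | @exp g hg i1 =>
    refine reach_two ha (i1 hg.analytic) (i1 hg.analytic) fun P hP F d hd hc M hM m1 _ => ?_
    refine hM.step_exp hd (hc _ (Or.inl rfl)).1 fun i => ⟨d i (g P), hM.der i _ m1, ?_⟩
    rw [(hc g (Or.inr rfl)).2 i, ← D_exp i (hg.analytic P hP)]
    exact (hc _ (Or.inl rfl)).2 i
  | @root f g n hn _ hg e i1 =>
    refine reach_two ha (i1 hg.analytic) (i1 hg.analytic) fun P hP F d hd hc M hM m1 _ => ?_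
    exact hM.step_root hd (hc _ (Or.inl rfl)).1 hn (by rw [e P hP]; exact m1)
  | @log f g _ hg e i1 =>
    refine reach_two ha (i1 hg.analytic) (i1 hg.analytic) fun P hP F d hd hc M hM m1 _ => ?_
    refine hM.step_int hd (hc _ (Or.inl rfl)).1 fun i => ?_
    have e1 := D_congr i hB hP e
    rw [D_exp i (ha P hP), e P hP, ← (hc g (Or.inr rfl)).2 i, ← (hc f (Or.inl rfl)).2 i] at e1
    have h0 : g P ≠ 0 := by rw [← e P hP]; exact Complex.exp_ne_zero _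
    have e2 : d i (f P) = d i (g P) / g P := by rw [← e1]; field_simp
    rw [e2]
    exact div_mem (hM.der i _ m1) m1
  | @prim f g h _ hg hh e1 e2 i1 i2 =>
    refine reach_two ha (i1 hg.analytic) (i2 hh.analytic) fun P hP F d hd hc M hM m1 m2 => ?_
    refine hM.step_int hd (hc _ (Or.inl rfl)).1 fun i => ?_
    rw [(hc f (Or.inl rfl)).2 i]
    cases i
    · rw [← e2 P hP] at m2; exact m2
    · rw [← e1 P hP] at m1; exact m1

/-- Outside a meagre set, the value of a Liouvillian function is solvable by radicals over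
`K(a, b)` for a field `K` over which `a`, `b` are algebraically independent. -/
theorem Liouv.eventually_rad (hB : IsOpen B) {f : ℝ × ℝ → ℂ} (h : Liouv B f) :
    ∀ᶠ P in residual (ℝ × ℝ), P ∈ B →
      ∃ K : Subfield ℂ, AlgebraicIndependent K ![(P.1 : ℂ), (P.2 : ℂ)] ∧
      f P ∈ solvableByRad (IntermediateField.adjoin K ({(P.1 : ℂ), (P.2 : ℂ)} : Set ℂ)) ℂ := by
  obtain ⟨S, hS, hA, -, H⟩ := h.reach hB
  filter_upwards [eventually_field hB
    ((hS.insert fun p : ℝ × ℝ => (p.2 : ℂ)).insert fun p : ℝ × ℝ => (p.1 : ℂ)) (by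
      rintro g (rfl | rfl | hg)
      exacts [Liouv.fst.analytic, Liouv.snd.analytic, hA g hg])] with P hF hP
  obtain ⟨F, d, hd, hcomp⟩ := hF hP
  obtain ⟨a1, a2⟩ := hcomp _ (Or.inl rfl)
  obtain ⟨b1, b2⟩ := hcomp _ (Or.inr (Or.inl rfl))
  obtain ⟨M, hM⟩ := good_base hd a1 b1
    (by rw [a2, D, (hasF_fst P).fderiv]; simp [dir])
    (by rw [a2, D, (hasF_fst P).fderiv]; simp [dir])
    (by rw [b2, D, (hasF_snd P).fderiv]; simp [dir])
    (by rw [b2, D, (hasF_snd P).fderiv]; simp [dir])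
  obtain ⟨M', hM', -, hf⟩ := H P hP F d hd (fun g hg => hcomp g (Or.inr (Or.inr hg))) M hM
  obtain ⟨K, -, hK, hrad⟩ := hM'.rad
  exact ⟨K, hK, hrad _ hf⟩

theorem meagre_of_not_rad {O : Set (ℝ × ℝ)} {U : ℝ × ℝ → ℝ}
    (H : ∀ p ∈ O, ∀ K : Subfield ℂ, AlgebraicIndependent K ![(p.1 : ℂ), (p.2 : ℂ)] →
      ¬ Dy.Rad K p.1 p.2 (U p)) (hB : IsOpen B) {f : ℝ × ℝ → ℂ} (h : Liouv B f) :
    IsMeagre {p | p ∈ O ∧ p ∈ B ∧ f p = U p} := by
  unfold IsMeagre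
  filter_upwards [h.eventually_rad hB] with P hP
  rintro ⟨hO, hPB, e⟩
  obtain ⟨K, hK, hrad⟩ := hP hPB
  exact H P hO K hK (by rw [e] at hrad; exact hrad)

end Pool.Agent.Lib.MP_55068a_an.Lv
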